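import Pool.Agent.J4H58.XC.Stm

/-!
# X2: decay gives Poincare's inequality
-/

set_option autoImplicit false

namespace Pool.Agent.J4H13.XC

open Finset Pool.Agent.J4H58.XC

/-- a log-convex sequence which decays like `q ^ j` -/
theorem logconvex {v : ℕ → ℝ} {C q : ℝ} (hq : 0 < q) (h0 : ∀ j, 0 ≤ v j)
    (h1 : ∀ j, v (j + 1) ^ 2 ≤ v j * v (j + 2)) (h2 : ∀ j, v j ≤ C * q ^ j) : v 1 ≤ q * v 0 := by
  by_contra hcon
  rw [not_le] at hcon
  have hv0 : 0 < v 0 := by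
    rcases (h0 0).lt_or_eq with h | h
    · exact h
    · exfalso
      have h3 := h1 0
      rw [← h, zero_mul] at h3
      rw [← h, mul_zero] at hcon
      have h4 : 0 < v (0 + 1) ^ 2 := pow_pos hcon 2
      linarith
  obtain ⟨ρ, hρ⟩ : ∃ ρ, ρ = v 1 / v 0 := ⟨_, rfl⟩
  have hρq : q < ρ := by
    rw [hρ, lt_div_iff₀ hv0]
    exact hcon
  have hρ0 : 0 < ρ := hq.trans hρq
  have h3 : ∀ j, 0 < v j ∧ ρ * v j ≤ v (j + 1) := by
    intro j
    induction j with
    | zero =>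
      refine ⟨hv0, ?_⟩
      rw [hρ, div_mul_cancel₀ _ hv0.ne']
    | succ j ih =>
      have hp : 0 < v (j + 1) := lt_of_lt_of_le (mul_pos hρ0 ih.1) ih.2
      refine ⟨hp, ?_⟩
      have h4 := h1 j
      have h5 : ρ * v j * v (j + 1) ≤ v j * v (j + 2) := by
        refine le_trans ?_ h4
        rw [sq]
        exact mul_le_mul_of_nonneg_right ih.2 hp.le
      have h6 : v j * (ρ * v (j + 1)) ≤ v j * v (j + 1 + 1) := by
        calc v j * (ρ * v (j + 1)) = ρ * v j * v (j + 1) := by ring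
          _ ≤ _ := h5
      exact le_of_mul_le_mul_left h6 ih.1
  have h4 : ∀ j, ρ ^ j * v 0 ≤ v j := by
    intro j
    induction j with
    | zero => rw [pow_zero, one_mul]
    | succ j ih =>
      refine le_trans ?_ (h3 j).2
      calc ρ ^ (j + 1) * v 0 = ρ * (ρ ^ j * v 0) := by ring
        _ ≤ ρ * v j := mul_le_mul_of_nonneg_left ih hρ0.le
  have h5 : 1 < ρ / q := (one_lt_div hq).2 hρq
  obtain ⟨j, hj⟩ := pow_unbounded_of_one_lt (C / v 0) h5
  have h6 := (h4 j).trans (h2 j)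
  rw [div_pow, div_lt_div_iff₀ hv0 (pow_pos hq j)] at hj
  linarith

section

variable {S : Type} [DecidableEq S] {A : Finset S} {m : S → ℝ} {c : S → S → ℝ}

omit [DecidableEq S] in
theorem self_adj (h : Ch A m c) (ε : ℝ) (F G : S → ℝ) :
    ∑ s ∈ A, m s * (st A m c ε F s * G s) = ∑ s ∈ A, m s * (F s * G s) -
      ε * (1 / 2 * ∑ s ∈ A, ∑ t ∈ A, c s t * ((F t - F s) * (G t - G s))) := by
  have h1 : ∀ s ∈ A, m s * (st A m c ε F s * G s) = m s * (F s * G s) +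
      ε * ∑ t ∈ A, c s t * ((F t - F s) * G s) := by
    intro s hs
    have hm : m s ≠ 0 := (h.pos s hs).ne'
    unfold st
    have h2 : ∑ t ∈ A, c s t * ((F t - F s) * G s) = (∑ t ∈ A, c s t * (F t - F s)) * G s := by
      rw [Finset.sum_mul]
      refine Finset.sum_congr rfl fun t _ => ?_
      ring
    rw [h2]
    field_simp
  rw [Finset.sum_congr rfl h1, Finset.sum_add_distrib, ← Finset.mul_sum]
  have h3 : ∑ s ∈ A, ∑ t ∈ A, c s t * ((F t - F s) * G s) =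
      ∑ s ∈ A, ∑ t ∈ A, c s t * ((F s - F t) * G t) := by
    rw [Finset.sum_comm]
    refine Finset.sum_congr rfl fun s _ => Finset.sum_congr rfl fun t _ => ?_
    rw [h.symm t s]
  have h4 : ∑ s ∈ A, ∑ t ∈ A, c s t * ((F t - F s) * (G t - G s)) =
      -(∑ s ∈ A, ∑ t ∈ A, c s t * ((F s - F t) * G t)) -
        ∑ s ∈ A, ∑ t ∈ A, c s t * ((F t - F s) * G s) := by
    rw [← Finset.sum_neg_distrib, ← Finset.sum_sub_distrib]
    refine Finset.sum_congr rfl fun s _ => ?_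
    rw [← Finset.sum_neg_distrib, ← Finset.sum_sub_distrib]
    refine Finset.sum_congr rfl fun t _ => ?_
    ring
  rw [h4, ← h3]
  ring

omit [DecidableEq S] in
theorem self_adj' (h : Ch A m c) (ε : ℝ) (F G : S → ℝ) :
    ∑ s ∈ A, m s * (st A m c ε F s * G s) = ∑ s ∈ A, m s * (F s * st A m c ε G s) := by
  have h1 := self_adj h ε F G
  have h2 := self_adj h ε G F
  have h3 : ∑ s ∈ A, m s * (F s * st A m c ε G s) = ∑ s ∈ A, m s * (st A m c ε G s * F s) :=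
    Finset.sum_congr rfl fun s _ => by ring
  have h4 : ∑ s ∈ A, m s * (G s * F s) = ∑ s ∈ A, m s * (F s * G s) :=
    Finset.sum_congr rfl fun s _ => by ring
  have h5 : ∑ s ∈ A, ∑ t ∈ A, c s t * ((G t - G s) * (F t - F s)) =
      ∑ s ∈ A, ∑ t ∈ A, c s t * ((F t - F s) * (G t - G s)) :=
    Finset.sum_congr rfl fun s _ => Finset.sum_congr rfl fun t _ => by ring
  rw [h3, h1, h2, h4, h5]

omit [DecidableEq S] in
theorem cs (h : Ch A m c) (F G : S → ℝ) : (∑ s ∈ A, m s * (F s * G s)) ^ 2 ≤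
    (∑ s ∈ A, m s * F s ^ 2) * ∑ s ∈ A, m s * G s ^ 2 := by
  have h1 := Finset.sum_mul_sq_le_sq_mul_sq A (fun s => √(m s) * F s) (fun s => √(m s) * G s)
  have e : ∀ s ∈ A, √(m s) * √(m s) = m s := fun s hs => Real.mul_self_sqrt (h.pos s hs).le
  have e1 : ∑ s ∈ A, √(m s) * F s * (√(m s) * G s) = ∑ s ∈ A, m s * (F s * G s) :=
    Finset.sum_congr rfl fun s hs => by
      calc √(m s) * F s * (√(m s) * G s) = √(m s) * √(m s) * (F s * G s) := by ring
        _ = _ := by rw [e s hs]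
  have e2 : ∀ H : S → ℝ, ∑ s ∈ A, (√(m s) * H s) ^ 2 = ∑ s ∈ A, m s * H s ^ 2 := fun H =>
    Finset.sum_congr rfl fun s hs => by
      calc (√(m s) * H s) ^ 2 = √(m s) * √(m s) * H s ^ 2 := by ring
        _ = _ := by rw [e s hs]
  rw [e1, e2, e2] at h1
  exact h1

end

theorem t_X2 : S_X2 := by
  intro S _ A m c K ε h hε hεK _ hdec F
  rcases A.eq_empty_or_nonempty with rfl | hne
  · simp
  have hK : 0 < K := hε.trans hεK
  have hM : 0 < ∑ s ∈ A, m s := Finset.sum_pos h.pos hne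
  obtain ⟨M, hMe⟩ : ∃ M, M = ∑ s ∈ A, m s := ⟨_, rfl⟩
  rw [← hMe] at hM ⊢
  obtain ⟨b, hb⟩ : ∃ b, b = (∑ s ∈ A, m s * F s) / M := ⟨_, rfl⟩
  obtain ⟨G, hG⟩ : ∃ G : S → ℝ, G = fun s => F s - b := ⟨_, rfl⟩
  have hG0 : ∑ s ∈ A, m s * G s = 0 := by
    rw [hG]
    simp only [mul_sub]
    rw [Finset.sum_sub_distrib, ← Finset.sum_mul, ← hMe, hb, mul_div_cancel₀ _ hM.ne', sub_self]
  have hG2 : ∑ s ∈ A, m s * G s ^ 2 = ∑ s ∈ A, m s * F s ^ 2 - (∑ s ∈ A, m s * F s) ^ 2 / M := by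
    have e1 : ∀ s ∈ A, m s * G s ^ 2 = m s * F s ^ 2 - 2 * b * (m s * F s) + b ^ 2 * m s := by
      intro s _
      rw [hG]
      ring
    rw [Finset.sum_congr rfl e1, Finset.sum_add_distrib, Finset.sum_sub_distrib,
      ← Finset.mul_sum, ← Finset.mul_sum, ← hMe, hb]
    field_simp
    ring
  have hGe : en A c G = en A c F := by
    unfold en
    rw [hG]
    congr 1
    refine Finset.sum_congr rfl fun s _ => Finset.sum_congr rfl fun t _ => ?_
    ring
  obtain ⟨C, hC⟩ := hdec G hG0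
  obtain ⟨T, hT⟩ : ∃ T : (S → ℝ) → S → ℝ, T = st A m c ε := ⟨_, rfl⟩
  obtain ⟨θ, hθ⟩ : ∃ θ, θ = 1 - ε / K := ⟨_, rfl⟩
  have hθ0 : 0 < θ := by
    rw [hθ, sub_pos, div_lt_one hK]
    exact hεK
  rw [← hT, ← hθ] at hC
  have hsa : ∀ H J : S → ℝ, ∑ s ∈ A, m s * (T H s * J s) = ∑ s ∈ A, m s * (H s * T J s) := by
    intro H J
    rw [hT]
    exact self_adj' h ε H J
  have hsq : ∀ H : S → ℝ, ∑ s ∈ A, m s * (H s * H s) = ∑ s ∈ A, m s * H s ^ 2 := fun H =>
    Finset.sum_congr rfl fun s _ => by ring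
  have hmain := logconvex (v := fun j => ∑ s ∈ A, m s * (T^[j] G s) ^ 2) (C := C) (q := θ ^ 2)
    (pow_pos hθ0 2)
    (fun j => Finset.sum_nonneg fun s hs => mul_nonneg (h.pos s hs).le (sq_nonneg _))
    (by
      intro j
      have e1 : ∑ s ∈ A, m s * (T^[j + 1] G s) ^ 2 =
          ∑ s ∈ A, m s * (T^[j] G s * T^[j + 2] G s) := by
        rw [← hsq, Function.iterate_succ_apply' T (j + 1), Function.iterate_succ_apply' T j,
          hsa]
      rw [e1]
      exact cs h _ _)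
    (by
      intro j
      have := hC j
      rw [pow_mul] at this
      exact this)
  simp only [Function.iterate_zero, id_eq, Function.iterate_one] at hmain
  -- `⟨T G, G⟩ ≤ θ ⟨G, G⟩`
  have h5 : ∑ s ∈ A, m s * (T G s * G s) ≤ θ * ∑ s ∈ A, m s * G s ^ 2 := by
    have h6 := cs h (T G) G
    have h7 : 0 ≤ ∑ s ∈ A, m s * G s ^ 2 :=
      Finset.sum_nonneg fun s hs => mul_nonneg (h.pos s hs).le (sq_nonneg _)
    apply le_of_sq_le_sq _ (mul_nonneg hθ0.le h7)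
    refine h6.trans ?_
    calc (∑ s ∈ A, m s * T G s ^ 2) * ∑ s ∈ A, m s * G s ^ 2 ≤
        (θ ^ 2 * ∑ s ∈ A, m s * G s ^ 2) * ∑ s ∈ A, m s * G s ^ 2 :=
          mul_le_mul_of_nonneg_right hmain h7
      _ = _ := by ring
  have h8 : ∑ s ∈ A, m s * (T G s * G s) = ∑ s ∈ A, m s * G s ^ 2 - ε * en A c G := by
    rw [hT, self_adj h, hsq]
    unfold en
    congr 3
    refine Finset.sum_congr rfl fun s _ => Finset.sum_congr rfl fun t _ => ?_
    ring
  rw [h8, hθ] at h5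
  have h9 : ∑ s ∈ A, m s * G s ^ 2 ≤ K * en A c G := by
    have h10 : ε * (∑ s ∈ A, m s * G s ^ 2) ≤ ε * (K * en A c G) := by
      have h11 : ε / K * (∑ s ∈ A, m s * G s ^ 2) ≤ ε * en A c G := by linarith
      rw [div_mul_eq_mul_div, div_le_iff₀ hK] at h11
      linarith
    exact le_of_mul_le_mul_left h10 hε
  rw [hGe, hG2] at h9
  have h12 := mul_le_mul_of_nonneg_left h9 hM.le
  have h13 : M * (∑ s ∈ A, m s * F s ^ 2 - (∑ s ∈ A, m s * F s) ^ 2 / M) =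
      M * ∑ s ∈ A, m s * F s ^ 2 - (∑ s ∈ A, m s * F s) ^ 2 := by
    field_simp
  rw [h13] at h12
  exact h12

end Pool.Agent.J4H13.XC
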