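import Pool.Agent.J4H58.XC.Stm

/-!
# X3: one step preserves the domination
-/

set_option autoImplicit false

namespace Pool.Agent.J4H13.XC

open Finset Pool.Agent.J4H58.XC

variable {n : ℕ}

theorem swap_lt {a b x z : Fin n} (hab : (a : ℕ) + 1 = b)
    (h : Equiv.swap a b x < Equiv.swap a b z) : x < z ∨ (x = b ∧ z = a) := by
  rw [Equiv.swap_apply_def, Equiv.swap_apply_def] at h
  split_ifs at h <;> simp only [Fin.lt_def, Fin.ext_iff] at * <;> omega

theorem mem_swap {R : Fin n → Fin n → Prop} {q : Equiv.Perm (Fin n)} (hq : q ∈ Lin R)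
    {a b : Fin n} (hab : (a : ℕ) + 1 = b) :
    q * Equiv.swap a b ∈ Lin R ↔ ¬ R (q a) (q b) := by
  constructor
  · intro h hR
    have h1 := h b a (by
      rw [Equiv.Perm.mul_apply, Equiv.Perm.mul_apply, Equiv.swap_apply_right,
        Equiv.swap_apply_left]
      exact hR)
    rw [Fin.lt_def] at h1
    omega
  · intro h x z hxz
    rw [Equiv.Perm.mul_apply, Equiv.Perm.mul_apply] at hxz
    rcases swap_lt hab (hq _ _ hxz) with h1 | ⟨rfl, rfl⟩
    · exact h1
    · exfalso
      apply h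
      rw [Equiv.swap_apply_right, Equiv.swap_apply_left] at hxz
      exact hxz

theorem mul_swap_swap (q : Equiv.Perm (Fin n)) (a b i j : Fin n) :
    q * Equiv.swap i j * Equiv.swap a b =
      q * Equiv.swap a b * Equiv.swap (Equiv.swap a b i) (Equiv.swap a b j) := by
  rw [Equiv.swap_apply_apply, Equiv.swap_inv]
  simp only [mul_assoc]
  rw [← mul_assoc (Equiv.swap a b) (Equiv.swap a b), Equiv.swap_mul_self, one_mul]

theorem geo {R : Fin n → Fin n → Prop} {q : Equiv.Perm (Fin n)} {i j : Fin n} (hij : i < j)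
    (hq : q ∈ Lin R) (hq' : q * Equiv.swap i j ∈ Lin R) {a b : Fin n} (hab : (a : ℕ) + 1 = b)
    (h0 : ¬ (i = a ∧ j = b))
    (h : R (q a) (q b) ∨ R ((q * Equiv.swap i j) a) ((q * Equiv.swap i j) b))
    (θ : Fin n → ℝ) :
    (θ (Equiv.swap a b j) - θ j) - (θ (Equiv.swap a b i) - θ i) = θ b - θ a ∨
      ((θ (Equiv.swap a b j) - θ j) - (θ (Equiv.swap a b i) - θ i) = 0 ∧
        (q * Equiv.swap i j) a = q a ∧ (q * Equiv.swap i j) b = q b) := by
  have hablt : a < b := by rw [Fin.lt_def]; omega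
  have hi : (q * Equiv.swap i j) i = q j := by
    rw [Equiv.Perm.mul_apply, Equiv.swap_apply_left]
  have hj : (q * Equiv.swap i j) j = q i := by
    rw [Equiv.Perm.mul_apply, Equiv.swap_apply_right]
  have ho : ∀ z, z ≠ i → z ≠ j → (q * Equiv.swap i j) z = q z := by
    intro z h1 h2
    rw [Equiv.Perm.mul_apply, Equiv.swap_apply_of_ne_of_ne h1 h2]
  have hai : a ≠ i := by
    rintro rfl
    have hbj : b ≠ j := fun h => h0 ⟨rfl, h.symm⟩
    have hb := ho b hablt.ne' hbj
    rcases h with h | h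
    · have h1 := hq' j b (by rw [hj, hb]; exact h)
      rw [Fin.lt_def] at h1 hij
      omega
    · rw [hi, hb] at h
      have h1 := hq j b h
      rw [Fin.lt_def] at h1 hij
      omega
  have hbj : b ≠ j := by
    rintro rfl
    have ha := ho a hai hablt.ne
    rcases h with h | h
    · have h1 := hq' a i (by rw [hi, ha]; exact h)
      rw [Fin.lt_def] at h1 hij
      have h2 : (a : ℕ) ≠ i := fun h => hai (Fin.ext h)
      omega
    · rw [hj, ha] at h
      have h1 := hq a i h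
      rw [Fin.lt_def] at h1 hij
      have h2 : (a : ℕ) ≠ i := fun h => hai (Fin.ext h)
      omega
  by_cases hbi : b = i
  · left
    subst hbi
    rw [Equiv.swap_apply_right, Equiv.swap_apply_of_ne_of_ne (hablt.trans hij).ne' hij.ne']
    ring
  · by_cases haj : a = j
    · left
      subst haj
      rw [Equiv.swap_apply_left, Equiv.swap_apply_of_ne_of_ne hij.ne (hij.trans hablt).ne]
      ring
    · right
      refine ⟨?_, ho a hai haj, ho b hbi hbj⟩
      rw [Equiv.swap_apply_of_ne_of_ne (Ne.symm haj) (Ne.symm hbj),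
        Equiv.swap_apply_of_ne_of_ne (Ne.symm hai) (Ne.symm hbi)]
      ring

theorem key {R : Fin n → Fin n → Prop} {f : Equiv.Perm (Fin n) → ℝ} {θ : Fin n → ℝ}
    (hmono : ∀ i j : Fin n, i ≤ j → θ i ≤ θ j)
    (hdom : ∀ q : Equiv.Perm (Fin n), ∀ i j : Fin n, i < j → q ∈ Lin R →
      q * Equiv.swap i j ∈ Lin R → |f (q * Equiv.swap i j) - f q| ≤ θ j - θ i)
    {q : Equiv.Perm (Fin n)} {i j : Fin n} (hij : i < j) (hq : q ∈ Lin R)
    (hq' : q * Equiv.swap i j ∈ Lin R) {a b : Fin n} (hab : (a : ℕ) + 1 = b)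
    [Decidable (q * Equiv.swap i j * Equiv.swap a b ∈ Lin R)]
    [Decidable (q * Equiv.swap a b ∈ Lin R)] :
    ∃ c : ℝ, 0 ≤ c ∧ c ≤ 2 ∧
      |((if q * Equiv.swap i j * Equiv.swap a b ∈ Lin R then
          f (q * Equiv.swap i j * Equiv.swap a b) - f (q * Equiv.swap i j) else 0) -
        (if q * Equiv.swap a b ∈ Lin R then f (q * Equiv.swap a b) - f q else 0)) +
        c * (f (q * Equiv.swap i j) - f q)| ≤
      c * (θ j - θ i) + ((θ (Equiv.swap a b j) - θ j) - (θ (Equiv.swap a b i) - θ i)) := by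
  have hablt : a < b := by rw [Fin.lt_def]; omega
  have hne : a ≠ b := hablt.ne
  by_cases h0 : i = a ∧ j = b
  · obtain ⟨rfl, rfl⟩ := h0
    refine ⟨2, by norm_num, le_rfl, ?_⟩
    have e1 : q * Equiv.swap i j * Equiv.swap i j = q := by
      rw [mul_assoc, Equiv.swap_mul_self, mul_one]
    rw [if_pos (by rw [e1]; exact hq), if_pos hq', e1, Equiv.swap_apply_left,
      Equiv.swap_apply_right]
    have e2 : (f q - f (q * Equiv.swap i j) - (f (q * Equiv.swap i j) - f q) +
        2 * (f (q * Equiv.swap i j) - f q)) = 0 := by ring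
    rw [e2, abs_zero]
    linarith
  · have hlt : Equiv.swap a b i < Equiv.swap a b j := by
      by_contra hcon
      rw [not_lt] at hcon
      rcases hcon.lt_or_eq with h1 | h1
      · rcases swap_lt hab h1 with h2 | ⟨h2, h3⟩
        · exact absurd hij (not_lt.2 h2.le)
        · exact h0 ⟨h3, h2⟩
      · exact hij.ne ((Equiv.swap a b).injective h1).symm
    have m1 := mem_swap hq hab
    have m2 := mem_swap hq' hab
    by_cases hb1 : q * Equiv.swap a b ∈ Lin R
    · by_cases hb2 : q * Equiv.swap i j * Equiv.swap a b ∈ Lin R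
      · refine ⟨1, by norm_num, by norm_num, ?_⟩
        rw [if_pos hb1, if_pos hb2]
        have h3 := hdom (q * Equiv.swap a b) _ _ hlt hb1 (by rw [← mul_swap_swap]; exact hb2)
        rw [← mul_swap_swap] at h3
        have e2 : (f (q * Equiv.swap i j * Equiv.swap a b) - f (q * Equiv.swap i j) -
            (f (q * Equiv.swap a b) - f q) + 1 * (f (q * Equiv.swap i j) - f q)) =
            f (q * Equiv.swap i j * Equiv.swap a b) - f (q * Equiv.swap a b) := by ring
        rw [e2]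
        linarith
      · -- exactly one
        refine ⟨0, le_rfl, by norm_num, ?_⟩
        rw [if_pos hb1, if_neg hb2]
        have h3 := hdom q a b hablt hq hb1
        have e2 : (0 - (f (q * Equiv.swap a b) - f q) + 0 * (f (q * Equiv.swap i j) - f q)) =
            -(f (q * Equiv.swap a b) - f q) := by ring
        rw [e2, abs_neg]
        refine h3.trans ?_
        have hR2 : R ((q * Equiv.swap i j) a) ((q * Equiv.swap i j) b) := by
          by_contra hcon; exact hb2 (m2.2 hcon)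
        have hR1 : ¬ R (q a) (q b) := m1.1 hb1
        rcases geo hij hq hq' hab h0 (Or.inr hR2) θ with h4 | ⟨-, h5, h6⟩
        · rw [h4]
          linarith
        · rw [h5, h6] at hR2
          exact absurd hR2 hR1
    · by_cases hb2 : q * Equiv.swap i j * Equiv.swap a b ∈ Lin R
      · refine ⟨0, le_rfl, by norm_num, ?_⟩
        rw [if_neg hb1, if_pos hb2]
        have h3 := hdom (q * Equiv.swap i j) a b hablt hq' hb2
        have e2 : (f (q * Equiv.swap i j * Equiv.swap a b) - f (q * Equiv.swap i j) - 0 +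
            0 * (f (q * Equiv.swap i j) - f q)) =
            f (q * Equiv.swap i j * Equiv.swap a b) - f (q * Equiv.swap i j) := by ring
        rw [e2]
        refine h3.trans ?_
        have hR1 : R (q a) (q b) := by
          by_contra hcon; exact hb1 (m1.2 hcon)
        have hR2 : ¬ R ((q * Equiv.swap i j) a) ((q * Equiv.swap i j) b) := m2.1 hb2
        rcases geo hij hq hq' hab h0 (Or.inl hR1) θ with h4 | ⟨-, h5, h6⟩
        · rw [h4]
          linarith
        · rw [h5, h6] at hR2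
          exact absurd hR1 hR2
      · refine ⟨0, le_rfl, by norm_num, ?_⟩
        rw [if_neg hb1, if_neg hb2]
        have hR1 : R (q a) (q b) := by
          by_contra hcon; exact hb1 (m1.2 hcon)
        have e2 : ((0 : ℝ) - 0 + 0 * (f (q * Equiv.swap i j) - f q)) = 0 := by ring
        rw [e2, abs_zero]
        have h7 := hmono a b hablt.le
        rcases geo hij hq hq' hab h0 (Or.inl hR1) θ with h4 | ⟨h4, -⟩
        · rw [h4]
          linarith
        · rw [h4]
          linarith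

/-- the pairs of neighbours -/
def nb (n : ℕ) : Finset (Fin n × Fin n) := univ.filter fun p => (p.1 : ℕ) + 1 = p.2

theorem sum_nb (g : Fin n → Fin n → ℝ) :
    ∑ i : Fin n, ∑ j : Fin n, (if (i : ℕ) + 1 = j then g i j else 0) = ∑ p ∈ nb n, g p.1 p.2 := by
  rw [nb, Finset.sum_filter, ← Finset.univ_product_univ, Finset.sum_product]

theorem nb_le {l : ℕ → ℝ} (hl : ∀ k, 0 ≤ l k) : ∑ p ∈ nb n, l p.1 ≤ ∑ k ∈ range n, l k := by
  have h1 : ∑ p ∈ nb n, l p.1 = ∑ k ∈ (nb n).image (fun p => (p.1 : ℕ)), l k := by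
    rw [Finset.sum_image]
    rintro ⟨a, b⟩ h ⟨a', b'⟩ h' he
    simp only [nb, coe_filter, mem_univ, true_and, Set.mem_ofPred_eq] at h h' he
    ext
    · exact he
    · simp only
      omega
  rw [h1]
  apply Finset.sum_le_sum_of_subset_of_nonneg
  · intro k hk
    rw [Finset.mem_image] at hk
    obtain ⟨p, -, rfl⟩ := hk
    exact Finset.mem_range.2 p.1.2
  · intro k _ _
    exact hl k

open Classical in
theorem st_eq {Y : Type} [DecidableEq Y] (B : Finset Y) (p : Y → ℝ) (a : Y → Y → ℝ)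
    (l : ℕ → Y → ℝ) (R : Fin n → Fin n → Prop) (ε : ℝ) (F : Y × Equiv.Perm (Fin n) → ℝ) {y : Y}
    (hy : y ∈ B) {q : Equiv.Perm (Fin n)} (hq : q ∈ Lin R) :
    st (sts B R) (fun s => p s.1) (cd a l) ε F (y, q) = F (y, q) + ε / p y *
      (∑ z ∈ B, a y z * (F (z, q) - F (y, q)) +
        ∑ w ∈ nb n, l w.1 y * (if q * Equiv.swap w.1 w.2 ∈ Lin R then
          F (y, q * Equiv.swap w.1 w.2) - F (y, q) else 0)) := by
  unfold st
  congr 2
  unfold sts cd
  rw [Finset.sum_product]
  have h1 : ∀ z ∈ B, ∑ q' ∈ univ.filter (fun q => q ∈ Lin R),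
      ((if q = q' then a y z else 0) + (if y = z then ∑ i : Fin n, ∑ j : Fin n,
        (if (i : ℕ) + 1 = j ∧ q' = q * Equiv.swap i j then l i y else 0) else 0)) *
        (F (z, q') - F (y, q)) = a y z * (F (z, q) - F (y, q)) +
      (if y = z then ∑ w ∈ nb n, l w.1 y * (if q * Equiv.swap w.1 w.2 ∈ Lin R then
          F (y, q * Equiv.swap w.1 w.2) - F (y, q) else 0) else 0) := by
    intro z _
    simp only [add_mul]
    rw [Finset.sum_add_distrib]
    congr 1
    · simp only [ite_mul, zero_mul]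
      rw [Finset.sum_ite_eq, if_pos (Finset.mem_filter.2 ⟨Finset.mem_univ _, hq⟩)]
    · by_cases hyz : y = z
      · subst hyz
        simp only [if_true]
        have h2 : ∀ q' : Equiv.Perm (Fin n), ∑ i : Fin n, ∑ j : Fin n,
            (if (i : ℕ) + 1 = j ∧ q' = q * Equiv.swap i j then l i y else 0) =
            ∑ w ∈ nb n, (if q' = q * Equiv.swap w.1 w.2 then l w.1 y else 0) := by
          intro q'
          rw [← sum_nb (fun i j => if q' = q * Equiv.swap i j then l i y else 0)]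
          refine Finset.sum_congr rfl fun i _ => Finset.sum_congr rfl fun j _ => ?_
          rw [ite_and]
        simp only [h2, Finset.sum_mul]
        rw [Finset.sum_comm]
        refine Finset.sum_congr rfl fun w _ => ?_
        simp only [ite_mul, zero_mul]
        rw [Finset.sum_ite_eq']
        simp only [Finset.mem_filter, Finset.mem_univ, true_and]
        split_ifs <;> simp
      · simp only [if_neg hyz, zero_mul, Finset.sum_const_zero]
  rw [Finset.sum_congr rfl h1, Finset.sum_add_distrib, Finset.sum_ite_eq, if_pos hy]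

theorem tg_eq {Y : Type} [DecidableEq Y] (B : Finset Y) (p : Y → ℝ) (a : Y → Y → ℝ)
    (l : ℕ → Y → ℝ) (ε : ℝ) (Θ : Y → Fin n → ℝ) (y : Y) (r : Fin n) :
    tg B p a l ε Θ y r = Θ y r + ε / p y * (∑ z ∈ B, a y z * (Θ z r - Θ y r) +
      ∑ w ∈ nb n, l w.1 y * (Θ y (Equiv.swap w.1 w.2 r) - Θ y r)) := by
  unfold tg
  rw [sum_nb (fun i j => l i y * (Θ y (Equiv.swap i j r) - Θ y r))]

theorem diff_a {Y : Type} (B : Finset Y) (a : Y → ℝ) (f g : Y → ℝ) (f0 g0 : ℝ) :
    ∑ z ∈ B, a z * (f z - f0) - ∑ z ∈ B, a z * (g z - g0) =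
      ∑ z ∈ B, a z * (f z - g z) - (∑ z ∈ B, a z) * (f0 - g0) := by
  rw [Finset.sum_mul, ← Finset.sum_sub_distrib, ← Finset.sum_sub_distrib]
  refine Finset.sum_congr rfl fun z _ => ?_
  ring

theorem t_X3 : S_X3 := by
  classical
  intro n Y _ B p a l R ε hS hε hcond F Θ hD
  have hw : ∀ y ∈ B, 0 < ε / p y := fun y hy => div_pos hε (hS.pos y hy)
  have hL2 : ∀ y, ∑ u ∈ nb n, l u.1 y ≤ ∑ k ∈ range n, l k y := fun y =>
    nb_le (n := n) (l := fun k => l k y) (fun k => hS.lnn k y)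
  have hw2 : ∀ y ∈ B, ε / p y * (∑ z ∈ B, a y z + 2 * ∑ u ∈ nb n, l u.1 y) ≤ 1 / 2 := by
    intro y hy
    have h1 := hcond y hy
    have h2 := hS.pos y hy
    rw [div_mul_eq_mul_div, div_le_iff₀ h2]
    have h3 : ε * (∑ z ∈ B, a y z + 2 * ∑ u ∈ nb n, l u.1 y) ≤
        ε * (∑ z ∈ B, a y z + 2 * ∑ k ∈ range n, l k y) := by
      apply mul_le_mul_of_nonneg_left _ hε.le
      linarith [hL2 y]
    linarith
  constructor
  · intro y hy i j hij
    rcases hij.eq_or_lt with rfl | hij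
    · exact le_rfl
    have hd : 0 ≤ Θ y j - Θ y i := sub_nonneg.2 (hD.mono y hy i j hij.le)
    have hg : ∀ u ∈ nb n, l u.1 y * (-2 * (Θ y j - Θ y i)) ≤
        l u.1 y * (Θ y (Equiv.swap u.1 u.2 j) - Θ y j) -
          l u.1 y * (Θ y (Equiv.swap u.1 u.2 i) - Θ y i) := by
      rintro ⟨u, v⟩ hu
      have huv : (u : ℕ) + 1 = v := (Finset.mem_filter.1 hu).2
      rw [← mul_sub]
      apply mul_le_mul_of_nonneg_left _ (hS.lnn _ _)
      simp only
      by_cases h0 : i = u ∧ j = v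
      · obtain ⟨rfl, rfl⟩ := h0
        rw [Equiv.swap_apply_left, Equiv.swap_apply_right]
        linarith
      · have hle : Equiv.swap u v i ≤ Equiv.swap u v j := by
          by_contra hcon
          rw [not_le] at hcon
          rcases swap_lt huv hcon with h2 | ⟨h2, h3⟩
          · exact absurd hij (not_lt.2 h2.le)
          · exact h0 ⟨h3, h2⟩
        have h1 := hD.mono y hy _ _ hle
        linarith
    have hz : 0 ≤ ∑ z ∈ B, a y z * (Θ z j - Θ z i) := by
      apply Finset.sum_nonneg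
      intro z hz
      exact mul_nonneg (hS.ann y z) (sub_nonneg.2 (hD.mono z hz i j hij.le))
    have h1 := Finset.sum_le_sum hg
    rw [← Finset.sum_mul, Finset.sum_sub_distrib] at h1
    have h2 := diff_a B (a y) (fun z => Θ z j) (fun z => Θ z i) (Θ y j) (Θ y i)
    have h3 := mul_le_mul_of_nonneg_right (hw2 y hy) hd
    have h4 := mul_le_mul_of_nonneg_left h1 (hw y hy).le
    have h5 := mul_nonneg (hw y hy).le hz
    have h6 : ε / p y * (∑ z ∈ B, a y z * (Θ z j - Θ y j) -
      ∑ z ∈ B, a y z * (Θ z i - Θ y i)) = ε / p y *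
      (∑ z ∈ B, a y z * (Θ z j - Θ z i) - (∑ z ∈ B, a y z) * (Θ y j - Θ y i)) := by
      rw [h2]
    rw [tg_eq, tg_eq]
    nlinarith [h3, h4, h5, h6, hd]
  · intro y hy q i j hij hq hq'
    have hk : ∀ u : Fin n × Fin n, ∃ c : ℝ, 0 ≤ c ∧ c ≤ 2 ∧ (u ∈ nb n →
        |((if q * Equiv.swap i j * Equiv.swap u.1 u.2 ∈ Lin R then
            F (y, q * Equiv.swap i j * Equiv.swap u.1 u.2) - F (y, q * Equiv.swap i j) else 0) -
          (if q * Equiv.swap u.1 u.2 ∈ Lin R then F (y, q * Equiv.swap u.1 u.2) - F (y, q)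
            else 0)) + c * (F (y, q * Equiv.swap i j) - F (y, q))| ≤
        c * (Θ y j - Θ y i) + ((Θ y (Equiv.swap u.1 u.2 j) - Θ y j) -
          (Θ y (Equiv.swap u.1 u.2 i) - Θ y i))) := by
      intro u
      by_cases hu : u ∈ nb n
      · obtain ⟨c, h1, h2, h3⟩ := key (f := fun q => F (y, q)) (θ := Θ y) (hD.mono y hy)
          (fun q i j hij hq hq' => hD.dom y hy q i j hij hq hq') hij hq hq'
          (Finset.mem_filter.1 hu).2
        exact ⟨c, h1, h2, fun _ => h3⟩
      · exact ⟨0, le_rfl, by norm_num, fun h => absurd h hu⟩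
    choose c hc0 hc2 hc using hk
    have hΔ := hD.dom y hy q i j hij hq hq'
    rw [st_eq B p a l R ε F hy hq, st_eq B p a l R ε F hy hq', tg_eq, tg_eq]
    obtain ⟨q', hq'e⟩ : ∃ q', q' = q * Equiv.swap i j := ⟨_, rfl⟩
    rw [← hq'e] at hΔ hq' ⊢
    simp only [← hq'e] at hc
    obtain ⟨w, hwe⟩ : ∃ w, w = ε / p y := ⟨_, rfl⟩
    have hw0 := hw y hy
    have hw1 := hw2 y hy
    rw [← hwe] at hw0 hw1 ⊢
    have e1 := diff_a B (a y) (fun z => F (z, q')) (fun z => F (z, q)) (F (y, q')) (F (y, q))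
    have e3 := diff_a B (a y) (fun z => Θ z j) (fun z => Θ z i) (Θ y j) (Θ y i)
    have e2 : ∑ u ∈ nb n, l u.1 y * (if q' * Equiv.swap u.1 u.2 ∈ Lin R then
          F (y, q' * Equiv.swap u.1 u.2) - F (y, q') else 0) -
        ∑ u ∈ nb n, l u.1 y * (if q * Equiv.swap u.1 u.2 ∈ Lin R then
          F (y, q * Equiv.swap u.1 u.2) - F (y, q) else 0) =
        ∑ u ∈ nb n, l u.1 y * (((if q' * Equiv.swap u.1 u.2 ∈ Lin R then
            F (y, q' * Equiv.swap u.1 u.2) - F (y, q') else 0) -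
          (if q * Equiv.swap u.1 u.2 ∈ Lin R then F (y, q * Equiv.swap u.1 u.2) - F (y, q)
            else 0)) + c u * (F (y, q') - F (y, q))) -
        (∑ u ∈ nb n, l u.1 y * c u) * (F (y, q') - F (y, q)) := by
      rw [Finset.sum_mul, ← Finset.sum_sub_distrib, ← Finset.sum_sub_distrib]
      refine Finset.sum_congr rfl fun u _ => ?_
      ring
    have e4 : ∑ u ∈ nb n, l u.1 y * (Θ y (Equiv.swap u.1 u.2 j) - Θ y j) -
        ∑ u ∈ nb n, l u.1 y * (Θ y (Equiv.swap u.1 u.2 i) - Θ y i) =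
        ∑ u ∈ nb n, l u.1 y * (c u * (Θ y j - Θ y i) + ((Θ y (Equiv.swap u.1 u.2 j) - Θ y j) -
          (Θ y (Equiv.swap u.1 u.2 i) - Θ y i))) -
        (∑ u ∈ nb n, l u.1 y * c u) * (Θ y j - Θ y i) := by
      rw [Finset.sum_mul, ← Finset.sum_sub_distrib, ← Finset.sum_sub_distrib]
      refine Finset.sum_congr rfl fun u _ => ?_
      ring
    have hX : |∑ z ∈ B, a y z * (F (z, q') - F (z, q))| ≤
        ∑ z ∈ B, a y z * (Θ z j - Θ z i) := by
      refine (Finset.abs_sum_le_sum_abs _ _).trans (Finset.sum_le_sum fun z hz => ?_)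
      rw [abs_mul, abs_of_nonneg (hS.ann y z)]
      apply mul_le_mul_of_nonneg_left _ (hS.ann y z)
      rw [hq'e]
      exact hD.dom z hz q i j hij hq (by rw [← hq'e]; exact hq')
    have hZ : |∑ u ∈ nb n, l u.1 y * (((if q' * Equiv.swap u.1 u.2 ∈ Lin R then
            F (y, q' * Equiv.swap u.1 u.2) - F (y, q') else 0) -
          (if q * Equiv.swap u.1 u.2 ∈ Lin R then F (y, q * Equiv.swap u.1 u.2) - F (y, q)
            else 0)) + c u * (F (y, q') - F (y, q)))| ≤
        ∑ u ∈ nb n, l u.1 y * (c u * (Θ y j - Θ y i) + ((Θ y (Equiv.swap u.1 u.2 j) - Θ y j) -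
          (Θ y (Equiv.swap u.1 u.2 i) - Θ y i))) := by
      refine (Finset.abs_sum_le_sum_abs _ _).trans (Finset.sum_le_sum fun u hu => ?_)
      rw [abs_mul, abs_of_nonneg (hS.lnn _ y)]
      exact mul_le_mul_of_nonneg_left (hc u hu) (hS.lnn _ y)
    have hC : ∑ u ∈ nb n, l u.1 y * c u ≤ 2 * ∑ u ∈ nb n, l u.1 y := by
      rw [Finset.mul_sum]
      refine Finset.sum_le_sum fun u _ => ?_
      have := mul_le_mul_of_nonneg_left (hc2 u) (hS.lnn u.1 y)
      linarith
    obtain ⟨A, hA⟩ : ∃ A, A = ∑ z ∈ B, a y z := ⟨_, rfl⟩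
    obtain ⟨Cc, hCc⟩ : ∃ Cc, Cc = ∑ u ∈ nb n, l u.1 y * c u := ⟨_, rfl⟩
    obtain ⟨Ls, hLs⟩ : ∃ Ls, Ls = ∑ u ∈ nb n, l u.1 y := ⟨_, rfl⟩
    rw [← hA] at e1 e3 hw1
    rw [← hCc] at e2 e4 hC
    rw [← hLs] at hC hw1
    generalize (∑ z ∈ B, a y z * (F (z, q') - F (z, q))) = X at *
    generalize (∑ z ∈ B, a y z * (Θ z j - Θ z i)) = X' at *
    generalize (∑ u ∈ nb n, l u.1 y * (((if q' * Equiv.swap u.1 u.2 ∈ Lin R then
            F (y, q' * Equiv.swap u.1 u.2) - F (y, q') else 0) -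
          (if q * Equiv.swap u.1 u.2 ∈ Lin R then F (y, q * Equiv.swap u.1 u.2) - F (y, q)
            else 0)) + c u * (F (y, q') - F (y, q)))) = Z at *
    generalize (∑ u ∈ nb n, l u.1 y * (c u * (Θ y j - Θ y i) +
      ((Θ y (Equiv.swap u.1 u.2 j) - Θ y j) -
          (Θ y (Equiv.swap u.1 u.2 i) - Θ y i)))) = Z' at *
    have hκ : 0 ≤ 1 - w * A - w * Cc := by
      have := mul_le_mul_of_nonneg_left hC hw0.le
      nlinarith
    have hL : F (y, q') + w * (∑ z ∈ B, a y z * (F (z, q') - F (y, q')) +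
        ∑ u ∈ nb n, l u.1 y * (if q' * Equiv.swap u.1 u.2 ∈ Lin R then
          F (y, q' * Equiv.swap u.1 u.2) - F (y, q') else 0)) -
        (F (y, q) + w * (∑ z ∈ B, a y z * (F (z, q) - F (y, q)) +
        ∑ u ∈ nb n, l u.1 y * (if q * Equiv.swap u.1 u.2 ∈ Lin R then
          F (y, q * Equiv.swap u.1 u.2) - F (y, q) else 0))) =
        (1 - w * A - w * Cc) * (F (y, q') - F (y, q)) + w * X + w * Z := by
      linear_combination w * e1 + w * e2
    have hR : Θ y j + w * (∑ z ∈ B, a y z * (Θ z j - Θ y j) +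
        ∑ u ∈ nb n, l u.1 y * (Θ y (Equiv.swap u.1 u.2 j) - Θ y j)) -
        (Θ y i + w * (∑ z ∈ B, a y z * (Θ z i - Θ y i) +
        ∑ u ∈ nb n, l u.1 y * (Θ y (Equiv.swap u.1 u.2 i) - Θ y i))) =
        (1 - w * A - w * Cc) * (Θ y j - Θ y i) + w * X' + w * Z' := by
      linear_combination w * e3 + w * e4
    rw [hL, hR]
    refine (abs_add_three _ _ _).trans ?_
    rw [abs_mul, abs_mul, abs_mul, abs_of_nonneg hκ, abs_of_pos hw0]
    have h1 := mul_le_mul_of_nonneg_left hΔ hκ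
    have h2 := mul_le_mul_of_nonneg_left hX hw0.le
    have h3 := mul_le_mul_of_nonneg_left hZ hw0.le
    linarith


end Pool.Agent.J4H13.XC
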