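import Pool.Agent.J4H58.XC.Stm2
import Pool.Agent.J4H13.XC.X3

/-!
# X7: from the grid to the full system
-/

set_option autoImplicit false

namespace Pool.Agent.J4H13.XC

open Finset Pool.Agent.J4H58.XC

variable {n : ℕ}

/-! ### variances -/

section var

variable {S : Type} (A : Finset S)

theorem var_double (m F : S → ℝ) :
    (∑ s ∈ A, m s) * ∑ s ∈ A, m s * F s ^ 2 - (∑ s ∈ A, m s * F s) ^ 2 =
      1 / 2 * ∑ s ∈ A, ∑ t ∈ A, m s * m t * (F s - F t) ^ 2 := by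
  have h1 : ∑ s ∈ A, ∑ t ∈ A, m s * m t * (F s - F t) ^ 2 =
      ∑ s ∈ A, ((m s * F s ^ 2) * (∑ t ∈ A, m t) - 2 * (m s * F s) * (∑ t ∈ A, m t * F t) +
        m s * ∑ t ∈ A, m t * F t ^ 2) := by
    refine Finset.sum_congr rfl fun s _ => ?_
    rw [Finset.mul_sum, Finset.mul_sum, Finset.mul_sum, ← Finset.sum_sub_distrib,
      ← Finset.sum_add_distrib]
    refine Finset.sum_congr rfl fun t _ => ?_
    ring
  rw [h1, Finset.sum_add_distrib, Finset.sum_sub_distrib, ← Finset.sum_mul, ← Finset.sum_mul,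
    ← Finset.sum_mul, ← Finset.mul_sum]
  ring

theorem var_le (m F : S → ℝ) (b : ℝ) :
    (∑ s ∈ A, m s) * ∑ s ∈ A, m s * F s ^ 2 - (∑ s ∈ A, m s * F s) ^ 2 ≤
      (∑ s ∈ A, m s) * ∑ s ∈ A, m s * (F s - b) ^ 2 := by
  have h1 : ∑ s ∈ A, m s * (F s - b) ^ 2 =
      ∑ s ∈ A, m s * F s ^ 2 - 2 * b * ∑ s ∈ A, m s * F s + b ^ 2 * ∑ s ∈ A, m s := by
    rw [Finset.mul_sum, Finset.mul_sum, ← Finset.sum_sub_distrib, ← Finset.sum_add_distrib]
    refine Finset.sum_congr rfl fun s _ => ?_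
    ring
  rw [h1]
  nlinarith [sq_nonneg (∑ s ∈ A, m s * F s - b * ∑ s ∈ A, m s)]

theorem var_add {m F : S → ℝ} (hm : ∀ s ∈ A, 0 ≤ m s) {κ D : ℝ} (hκ : 0 ≤ κ)
    (hD : ∀ s ∈ A, ∀ t ∈ A, (F s - F t) ^ 2 ≤ D) :
    (∑ s ∈ A, (m s + κ)) * ∑ s ∈ A, (m s + κ) * F s ^ 2 - (∑ s ∈ A, (m s + κ) * F s) ^ 2 ≤
      (∑ s ∈ A, m s) * ∑ s ∈ A, m s * F s ^ 2 - (∑ s ∈ A, m s * F s) ^ 2 +
        (κ * (∑ s ∈ A, m s) * A.card + κ ^ 2 * A.card ^ 2 / 2) * D := by
  rw [var_double, var_double]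
  have h1 : ∑ s ∈ A, ∑ t ∈ A, (m s + κ) * (m t + κ) * (F s - F t) ^ 2 ≤
      ∑ s ∈ A, ∑ t ∈ A, (m s * m t * (F s - F t) ^ 2 + (κ * m s + κ * m t + κ ^ 2) * D) := by
    refine Finset.sum_le_sum fun s hs => Finset.sum_le_sum fun t ht => ?_
    have h2 := hD s hs t ht
    have h3 : 0 ≤ κ * m s + κ * m t + κ ^ 2 := by
      have := mul_nonneg hκ (hm s hs)
      have := mul_nonneg hκ (hm t ht)
      positivity
    have h4 := mul_le_mul_of_nonneg_left h2 h3
    nlinarith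
  have h5 : ∑ s ∈ A, ∑ t ∈ A, (m s * m t * (F s - F t) ^ 2 +
      (κ * m s + κ * m t + κ ^ 2) * D) = ∑ s ∈ A, ∑ t ∈ A, m s * m t * (F s - F t) ^ 2 +
      (2 * κ * (∑ s ∈ A, m s) * A.card + κ ^ 2 * A.card ^ 2) * D := by
    simp only [Finset.sum_add_distrib, ← Finset.sum_mul, ← Finset.mul_sum, Finset.sum_const,
      nsmul_eq_mul]
    ring
  rw [h5] at h1
  linarith

end var

theorem inj_sum {α β : Type} {s : Finset α} {t : Finset β} (φ : α → β) (hφ : ∀ a ∈ s, φ a ∈ t)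
    (hinj : ∀ a ∈ s, ∀ a' ∈ s, φ a = φ a' → a = a') {u : α → ℝ} {v : β → ℝ}
    (hv : ∀ b ∈ t, 0 ≤ v b) (huv : ∀ a ∈ s, u a ≤ v (φ a)) :
    ∑ a ∈ s, u a ≤ ∑ b ∈ t, v b := by
  classical
  calc ∑ a ∈ s, u a ≤ ∑ a ∈ s, v (φ a) := Finset.sum_le_sum huv
    _ = ∑ b ∈ s.image φ, v b := by
      rw [Finset.sum_image]
      intro a ha a' ha' h
      exact hinj a ha a' ha' h
    _ ≤ _ := by
      apply Finset.sum_le_sum_of_subset_of_nonneg
      · intro b hb
        rw [Finset.mem_image] at hb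
        obtain ⟨a, ha, rfl⟩ := hb
        exact hφ a ha
      · intro b hb _
        exact hv b hb

/-! ### the energy -/

open Classical in
theorem sum_cd {Y : Type} [DecidableEq Y] (B : Finset Y) (a : Y → Y → ℝ)
    (l : ℕ → Y → ℝ) (R : Fin n → Fin n → Prop) (G : Y × Equiv.Perm (Fin n) → ℝ) {y : Y}
    (hy : y ∈ B) {q : Equiv.Perm (Fin n)} (hq : q ∈ Lin R) :
    ∑ t ∈ sts B R, cd a l (y, q) t * G t = ∑ z ∈ B, a y z * G (z, q) +
        ∑ w ∈ nb n, l w.1 y * (if q * Equiv.swap w.1 w.2 ∈ Lin R then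
          G (y, q * Equiv.swap w.1 w.2) else 0) := by
  unfold sts cd
  rw [Finset.sum_product]
  have h1 : ∀ z ∈ B, ∑ q' ∈ univ.filter (fun q => q ∈ Lin R),
      ((if q = q' then a y z else 0) + (if y = z then ∑ i : Fin n, ∑ j : Fin n,
        (if (i : ℕ) + 1 = j ∧ q' = q * Equiv.swap i j then l i y else 0) else 0)) *
        G (z, q') = a y z * G (z, q) +
      (if y = z then ∑ w ∈ nb n, l w.1 y * (if q * Equiv.swap w.1 w.2 ∈ Lin R then
          G (y, q * Equiv.swap w.1 w.2) else 0) else 0) := by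
    intro z _
    simp only [add_mul]
    rw [Finset.sum_add_distrib]
    congr 1
    · simp only [ite_mul, zero_mul]
      rw [Finset.sum_ite_eq, if_pos (Finset.mem_filter.2 ⟨Finset.mem_univ _, hq⟩)]
    · by_cases hyz : y = z
      · subst hyz
        simp only [if_true]
        have h2 : ∀ q' : Equiv.Perm (Fin n), ∑ i : Fin n, ∑ j : Fin n,
            (if (i : ℕ) + 1 = j ∧ q' = q * Equiv.swap i j then l i y else 0) =
            ∑ w ∈ nb n, (if q' = q * Equiv.swap w.1 w.2 then l w.1 y else 0) := by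
          intro q'
          rw [← sum_nb (fun i j => if q' = q * Equiv.swap i j then l i y else 0)]
          refine Finset.sum_congr rfl fun i _ => Finset.sum_congr rfl fun j _ => ?_
          rw [ite_and]
        simp only [h2, Finset.sum_mul]
        rw [Finset.sum_comm]
        refine Finset.sum_congr rfl fun w _ => ?_
        simp only [ite_mul, zero_mul]
        rw [Finset.sum_ite_eq']
        simp only [Finset.mem_filter, Finset.mem_univ, true_and]
        split_ifs <;> simp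
      · simp only [if_neg hyz, zero_mul, Finset.sum_const_zero]
  rw [Finset.sum_congr rfl h1, Finset.sum_add_distrib, Finset.sum_ite_eq, if_pos hy]

/-- the full set of states -/
theorem sts_full {Y : Type} [DecidableEq Y] (B : Finset Y) :
    sts (n := n) B (fun _ _ => False) = B ×ˢ Finset.univ := by
  classical
  unfold sts
  congr 1
  apply Finset.filter_true_of_mem
  intro q _ i j h
  exact h.elim

open Classical in
/-- energy of the moves -/
noncomputable def Em (N : ℕ) (s : (Fin n → ℕ) → Fin n → ℝ)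
    (F : (Fin n → ℕ) × Equiv.Perm (Fin n) → ℝ) : ℝ :=
  ∑ y ∈ mb n N, ∑ k : Fin n, ∑ q : Equiv.Perm (Fin n), if y + Pi.single k 1 ∈ mb n N then
    s y k * (F (y + Pi.single k 1, q) - F (y, q)) ^ 2 else 0

open Classical in
/-- energy of the exchanges -/
noncomputable def Ex (N : ℕ) (F : (Fin n → ℕ) × Equiv.Perm (Fin n) → ℝ) : ℝ :=
  1 / 2 * ∑ y ∈ mb n N, ∑ q : Equiv.Perm (Fin n), ∑ w ∈ nb n,
    if y w.1 = y w.2 then (F (y, q * Equiv.swap w.1 w.2) - F (y, q)) ^ 2 else 0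

theorem en_eq (N : ℕ) (s : (Fin n → ℕ) → Fin n → ℝ) (Λ : ℝ)
    (F : (Fin n → ℕ) × Equiv.Perm (Fin n) → ℝ) :
    en (sts (mb n N) (fun _ _ => False)) (cd (ga s) (gl Λ)) F = Em N s F + Λ * Ex N F := by
  classical
  unfold en
  have h1 : ∀ t ∈ sts (n := n) (mb n N) (fun _ _ => False),
      ∑ t' ∈ sts (mb n N) (fun _ _ => False), cd (ga s) (gl Λ) t t' * (F t' - F t) ^ 2 =
      ∑ z ∈ mb n N, ga s t.1 z * (F (z, t.2) - F t) ^ 2 + ∑ w ∈ nb n, gl Λ w.1 t.1 *
        (F (t.1, t.2 * Equiv.swap w.1 w.2) - F t) ^ 2 := by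
    rintro ⟨y, q⟩ ht
    rw [sts_full, Finset.mem_product] at ht
    have hL : ∀ q : Equiv.Perm (Fin n), q ∈ Lin (fun _ _ : Fin n => False) :=
      fun q i j h => h.elim
    rw [sum_cd (mb n N) (ga s) (gl Λ) (fun _ _ => False) (fun t' => (F t' - F (y, q)) ^ 2) ht.1
      (hL q)]
    simp only [if_pos (hL _)]
  rw [Finset.sum_congr rfl h1, Finset.sum_add_distrib, mul_add]
  congr 1
  · -- moves
    rw [sts_full, Finset.sum_product]
    simp only
    have h2 : ∀ q : Equiv.Perm (Fin n), ∑ y ∈ mb n N, ∑ z ∈ mb n N,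
        ga s y z * (F (z, q) - F (y, q)) ^ 2 = 2 * ∑ y ∈ mb n N, ∑ k : Fin n,
          if y + Pi.single k 1 ∈ mb n N then
            s y k * (F (y + Pi.single k 1, q) - F (y, q)) ^ 2 else 0 := by
      intro q
      unfold ga
      have h3 : ∀ y ∈ mb n N, ∀ z ∈ mb n N, (∑ k : Fin n, ((if z = y + Pi.single k 1 then s y k
          else 0) + (if y = z + Pi.single k 1 then s z k else 0))) * (F (z, q) - F (y, q)) ^ 2 =
          ∑ k : Fin n, (if z = y + Pi.single k 1 then s y k * (F (z, q) - F (y, q)) ^ 2 else 0) +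
          ∑ k : Fin n, (if y = z + Pi.single k 1 then s z k * (F (y, q) - F (z, q)) ^ 2
            else 0) := by
        intro y _ z _
        rw [← Finset.sum_add_distrib, Finset.sum_mul]
        refine Finset.sum_congr rfl fun k _ => ?_
        rw [add_mul, ite_mul, ite_mul, zero_mul]
        congr 2
        ring
      rw [Finset.sum_congr rfl fun y hy => Finset.sum_congr rfl fun z hz => h3 y hy z hz]
      simp only [Finset.sum_add_distrib]
      have h4 : ∑ y ∈ mb n N, ∑ z ∈ mb n N, ∑ k : Fin n,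
          (if y = z + Pi.single k 1 then s z k * (F (y, q) - F (z, q)) ^ 2 else 0) =
          ∑ y ∈ mb n N, ∑ z ∈ mb n N, ∑ k : Fin n,
          (if z = y + Pi.single k 1 then s y k * (F (z, q) - F (y, q)) ^ 2 else 0) :=
        Finset.sum_comm
      rw [h4, ← two_mul]
      congr 1
      refine Finset.sum_congr rfl fun y _ => ?_
      rw [Finset.sum_comm]
      refine Finset.sum_congr rfl fun k _ => ?_
      rw [Finset.sum_ite_eq']
    rw [Finset.sum_congr rfl fun y _ => rfl, Finset.sum_comm]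
    rw [Finset.sum_congr rfl fun q _ => h2 q, ← Finset.mul_sum]
    unfold Em
    rw [Finset.sum_comm]
    rw [← mul_assoc, show (1 / 2 : ℝ) * 2 = 1 by norm_num, one_mul]
    refine Finset.sum_congr rfl fun y _ => ?_
    rw [Finset.sum_comm]
  · -- exchanges
    rw [sts_full, Finset.sum_product]
    simp only
    unfold Ex
    rw [← mul_assoc, mul_comm Λ, mul_assoc, Finset.mul_sum (a := Λ)]
    congr 1
    refine Finset.sum_congr rfl fun y _ => ?_
    rw [Finset.mul_sum]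
    refine Finset.sum_congr rfl fun q _ => ?_
    rw [Finset.mul_sum]
    refine Finset.sum_congr rfl fun w hw => ?_
    have hw' : (w.1 : ℕ) + 1 = w.2 := (Finset.mem_filter.1 hw).2
    have h5 : gl Λ w.1 y = if y w.1 = y w.2 then Λ else 0 := by
      unfold gl
      by_cases h : y w.1 = y w.2
      · rw [if_pos h, if_pos ⟨w.1, w.2, rfl, hw'.symm, h⟩]
      · rw [if_neg h, if_neg]
        rintro ⟨i, j, hi, hj, hij⟩
        apply h
        have e1 : i = w.1 := Fin.ext hi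
        have e2 : j = w.2 := Fin.ext (by omega)
        rw [← e1, ← e2]
        exact hij
    rw [h5]
    split_ifs <;> simp

theorem Em_nonneg (N : ℕ) {s : (Fin n → ℕ) → Fin n → ℝ} (hs : ∀ x i, 0 < s x i)
    (F : (Fin n → ℕ) × Equiv.Perm (Fin n) → ℝ) : 0 ≤ Em N s F := by
  classical
  unfold Em
  refine Finset.sum_nonneg fun y _ => Finset.sum_nonneg fun k _ => Finset.sum_nonneg fun q _ => ?_
  split_ifs
  · exact mul_nonneg (hs _ _).le (sq_nonneg _)
  · exact le_rfl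

theorem Ex_nonneg (N : ℕ) (F : (Fin n → ℕ) × Equiv.Perm (Fin n) → ℝ) : 0 ≤ Ex N F := by
  classical
  unfold Ex
  refine mul_nonneg (by norm_num) (Finset.sum_nonneg fun y _ => Finset.sum_nonneg fun q _ =>
    Finset.sum_nonneg fun w _ => ?_)
  split_ifs
  · exact sq_nonneg _
  · exact le_rfl

/-! ### sorting -/

theorem mem_box {N : ℕ} {x : Fin n → ℕ} : x ∈ Pool.Agent.J4H58.XC.box n N ↔ ∀ i, x i ≤ N := by
  unfold Pool.Agent.J4H58.XC.box
  rw [Fintype.mem_piFinset]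
  simp only [Finset.mem_range, Nat.lt_succ_iff]

theorem mem_mb' {N : ℕ} {x : Fin n → ℕ} : x ∈ mb n N ↔ (∀ i, x i ≤ N) ∧ Monotone x := by
  classical
  unfold mb
  rw [Finset.mem_filter, mem_box]

/-- sorts the keys `2 x j + 1{j = i}` -/
def qq (x : Fin n → ℕ) (i : Fin n) : Equiv.Perm (Fin n) :=
  Tuple.sort fun j => 2 * x j + if j = i then 1 else 0

theorem qq_mono (x : Fin n → ℕ) (i : Fin n) : Monotone (x ∘ qq x i) := by
  intro a b hab
  have h := Tuple.monotone_sort (fun j => 2 * x j + if j = i then 1 else 0) hab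
  simp only [Function.comp_apply] at h ⊢
  unfold qq
  split_ifs at h <;> omega

theorem qq_mono' (x : Fin n → ℕ) (i : Fin n) : Monotone ((x + Pi.single i 1) ∘ qq x i) := by
  intro a b hab
  have h := Tuple.monotone_sort (fun j => 2 * x j + if j = i then 1 else 0) hab
  simp only [Function.comp_apply, Pi.add_apply, Pi.single_apply] at h ⊢
  unfold qq
  split_ifs at h ⊢ <;> omega

theorem add_comp (x : Fin n → ℕ) (i : Fin n) (q : Equiv.Perm (Fin n)) :
    (x + Pi.single i 1) ∘ q = x ∘ q + Pi.single (q⁻¹ i) 1 := by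
  funext j
  simp only [Function.comp_apply, Pi.add_apply, Pi.single_apply]
  congr 1
  have : q j = i ↔ j = q⁻¹ i := by
    rw [Equiv.Perm.eq_inv_iff_eq]
  simp only [this]

/-- the function on the grid -/
def ff (F : (Fin n → ℕ) × Equiv.Perm (Fin n) → ℝ) (x : Fin n → ℕ) : ℝ :=
  F (x ∘ Tuple.sort x, Tuple.sort x)

theorem lhs_le {N : ℕ} {r : (Fin n → ℕ) → ℝ} {s : (Fin n → ℕ) → Fin n → ℝ} (hW : Wt n r s)
    (F : (Fin n → ℕ) × Equiv.Perm (Fin n) → ℝ) (b : ℝ) :
    ∑ t ∈ sts (n := n) (mb n N) (fun _ _ => False), r t.1 * (F t - b) ^ 2 ≤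
      ∑ x ∈ Pool.Agent.J4H58.XC.box n N, r x * (ff F x - b) ^ 2 := by
  classical
  rw [← Finset.sum_filter_of_ne (p := fun t : (Fin n → ℕ) × Equiv.Perm (Fin n) =>
    Function.Injective t.1)]
  · refine inj_sum (fun t => t.1 ∘ (t.2⁻¹ : Equiv.Perm (Fin n))) ?_ ?_ ?_ ?_
    · rintro ⟨y, q⟩ ht
      rw [sts_full, Finset.mem_filter, Finset.mem_product, mem_mb'] at ht
      rw [mem_box]
      intro i
      exact ht.1.1.1 _
    · rintro ⟨y, q⟩ ht ⟨y', q'⟩ ht' he
      rw [sts_full, Finset.mem_filter, Finset.mem_product, mem_mb'] at ht ht'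
      simp only at ht ht' he
      have h1 : (y ∘ (q⁻¹ : Equiv.Perm (Fin n))) ∘ q = y := by
        funext j; simp
      have h2 : (y ∘ (q⁻¹ : Equiv.Perm (Fin n))) ∘ q' = y' := by
        rw [he]; funext j; simp
      have h3 : y = y' := by
        rw [← h1, ← h2]
        apply Tuple.unique_monotone
        · rw [h1]; exact ht.1.1.2
        · rw [h2]; exact ht'.1.1.2
      subst h3
      have h4 : q⁻¹ = q'⁻¹ := by
        ext j
        exact congrArg Fin.val (ht.2 (congrFun he j))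
      rw [inv_injective h4]
    · intro x _
      exact mul_nonneg (hW.nn x) (sq_nonneg _)
    · rintro ⟨y, q⟩ ht
      rw [sts_full, Finset.mem_filter, Finset.mem_product, mem_mb'] at ht
      simp only at ht ⊢
      have h1 : (y ∘ (q⁻¹ : Equiv.Perm (Fin n))) ∘ q = y := by
        funext j; simp
      have h2 : (y ∘ (q⁻¹ : Equiv.Perm (Fin n))) ∘
          Tuple.sort (y ∘ (q⁻¹ : Equiv.Perm (Fin n))) = y :=
        (Tuple.unique_monotone (Tuple.monotone_sort _) (τ := q)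
          (by rw [h1]; exact ht.1.1.2)).trans h1
      have h3 : Tuple.sort (y ∘ (q⁻¹ : Equiv.Perm (Fin n))) = q := by
        ext j
        have h4 := congrFun h2 j
        have h5 := ht.2 h4
        rw [Equiv.Perm.inv_eq_iff_eq] at h5
        rw [h5]
      unfold ff
      rw [hW.rsym, h2, h3]
  · rintro ⟨y, q⟩ _ hne
    by_contra hcon
    apply hne
    rw [hW.inj y hcon, zero_mul]

theorem rhs_le {N : ℕ} {r : (Fin n → ℕ) → ℝ} {s : (Fin n → ℕ) → Fin n → ℝ} (hW : Wt n r s)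
    (F : (Fin n → ℕ) × Equiv.Perm (Fin n) → ℝ) :
    ∑ x ∈ Pool.Agent.J4H58.XC.box n N, ∑ i : Fin n, (if x i < N then s x i *
      (F ((x + Pi.single i 1) ∘ qq x i, qq x i) - F (x ∘ qq x i, qq x i)) ^ 2 else 0) ≤
      Em N s F := by
  classical
  have h1 : Em N s F = ∑ z ∈ (mb n N ×ˢ (Finset.univ : Finset (Fin n))) ×ˢ
      (Finset.univ : Finset (Equiv.Perm (Fin n))), (if z.1.1 + Pi.single z.1.2 1 ∈ mb n N then
        s z.1.1 z.1.2 * (F (z.1.1 + Pi.single z.1.2 1, z.2) - F (z.1.1, z.2)) ^ 2 else 0) := by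
    unfold Em
    rw [Finset.sum_product, Finset.sum_product]
  have h2 : ∑ x ∈ Pool.Agent.J4H58.XC.box n N, ∑ i : Fin n, (if x i < N then s x i *
      (F ((x + Pi.single i 1) ∘ qq x i, qq x i) - F (x ∘ qq x i, qq x i)) ^ 2 else 0) =
      ∑ p ∈ Pool.Agent.J4H58.XC.box n N ×ˢ (Finset.univ : Finset (Fin n)),
      (if p.1 p.2 < N then s p.1 p.2 * (F ((p.1 + Pi.single p.2 1) ∘ qq p.1 p.2, qq p.1 p.2) -
        F (p.1 ∘ qq p.1 p.2, qq p.1 p.2)) ^ 2 else 0) := by
    rw [Finset.sum_product]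
  rw [h1, h2, ← Finset.sum_filter]
  refine inj_sum (fun p : (Fin n → ℕ) × Fin n =>
    ((p.1 ∘ qq p.1 p.2, (qq p.1 p.2)⁻¹ p.2), qq p.1 p.2)) ?_ ?_ ?_ ?_
  · rintro ⟨x, i⟩ hx
    rw [Finset.mem_filter, Finset.mem_product, mem_box] at hx
    simp only [Finset.mem_product, Finset.mem_univ, and_true, mem_mb']
    exact ⟨fun j => hx.1.1 _, qq_mono x i⟩
  · rintro ⟨x, i⟩ _ ⟨x', i'⟩ _ he
    simp only [Prod.mk.injEq] at he
    obtain ⟨⟨h2, h3⟩, h4⟩ := he
    rw [← h4] at h2 h3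
    have h5 : i = i' := (qq x i)⁻¹.injective h3
    have h6 : x = x' := by
      funext j
      have := congrFun h2 ((qq x i)⁻¹ j)
      simpa using this
    rw [h5, h6]
  · rintro ⟨⟨y, k⟩, q⟩ _
    simp only
    split_ifs
    · exact mul_nonneg (hW.spos _ _).le (sq_nonneg _)
    · exact le_rfl
  · rintro ⟨x, i⟩ hx
    rw [Finset.mem_filter, Finset.mem_product, mem_box] at hx
    simp only at hx ⊢
    rw [← add_comp]
    rw [if_pos]
    · rw [hW.ssym, show qq x i ((qq x i)⁻¹ i) = i by simp]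
    · rw [mem_mb']
      refine ⟨fun j => ?_, qq_mono' x i⟩
      have h2 := hx.1.1 (qq x i j)
      have h3 := hx.2
      simp only [Function.comp_apply, Pi.add_apply, Pi.single_apply]
      split_ifs with h4
      · rw [h4]; omega
      · omega

theorem stab_le {C : ℝ} (hC0 : 0 ≤ C) (hC : ∀ (y : Fin n → ℕ), Monotone y →
    ∀ g : Equiv.Perm (Fin n), y ∘ g = y → ∀ h : Equiv.Perm (Fin n) → ℝ,
    ∑ q : Equiv.Perm (Fin n), (h (q * g) - h q) ^ 2 ≤
      C * ∑ q : Equiv.Perm (Fin n), ∑ i : Fin n, ∑ j : Fin n,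
        (if (i : ℕ) + 1 = j ∧ y i = y j then (h (q * Equiv.swap i j) - h q) ^ 2 else 0))
    {N : ℕ} (F : (Fin n → ℕ) × Equiv.Perm (Fin n) → ℝ) {y : Fin n → ℕ} (hy : y ∈ mb n N)
    {g : Equiv.Perm (Fin n)} (hg : y ∘ g = y) (q : Equiv.Perm (Fin n)) :
    (F (y, q * g) - F (y, q)) ^ 2 ≤ 2 * C * Ex N F := by
  classical
  have h1 := hC y (mem_mb'.1 hy).2 g hg (fun q => F (y, q))
  have h2 : (F (y, q * g) - F (y, q)) ^ 2 ≤
      ∑ q : Equiv.Perm (Fin n), (F (y, q * g) - F (y, q)) ^ 2 :=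
    Finset.single_le_sum (f := fun q => (F (y, q * g) - F (y, q)) ^ 2)
      (fun q _ => sq_nonneg _) (Finset.mem_univ q)
  refine h2.trans (h1.trans ?_)
  have h3 : ∑ q : Equiv.Perm (Fin n), ∑ i : Fin n, ∑ j : Fin n,
        (if (i : ℕ) + 1 = j ∧ y i = y j then (F (y, q * Equiv.swap i j) - F (y, q)) ^ 2
          else 0) ≤ 2 * Ex N F := by
    unfold Ex
    rw [← mul_assoc, show (2 : ℝ) * (1 / 2) = 1 by norm_num, one_mul]
    have h4 : ∑ q : Equiv.Perm (Fin n), ∑ i : Fin n, ∑ j : Fin n,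
        (if (i : ℕ) + 1 = j ∧ y i = y j then (F (y, q * Equiv.swap i j) - F (y, q)) ^ 2
          else 0) = ∑ q : Equiv.Perm (Fin n), ∑ w ∈ nb n,
        (if y w.1 = y w.2 then (F (y, q * Equiv.swap w.1 w.2) - F (y, q)) ^ 2 else 0) := by
      refine Finset.sum_congr rfl fun q _ => ?_
      rw [← sum_nb (fun i j => if y i = y j then (F (y, q * Equiv.swap i j) - F (y, q)) ^ 2
        else 0)]
      refine Finset.sum_congr rfl fun i _ => Finset.sum_congr rfl fun j _ => ?_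
      rw [ite_and]
    rw [h4]
    refine Finset.single_le_sum (f := fun y => ∑ q : Equiv.Perm (Fin n), ∑ w ∈ nb n,
        (if y w.1 = y w.2 then (F (y, q * Equiv.swap w.1 w.2) - F (y, q)) ^ 2 else 0))
      (fun y _ => Finset.sum_nonneg fun q _ => Finset.sum_nonneg fun w _ => ?_) hy
    split_ifs
    · exact sq_nonneg _
    · exact le_rfl
  calc C * _ ≤ C * (2 * Ex N F) := mul_le_mul_of_nonneg_left h3 hC0
    _ = _ := by ring

theorem srt_le {C : ℝ} (hC0 : 0 ≤ C) (hC : ∀ (y : Fin n → ℕ), Monotone y →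
    ∀ g : Equiv.Perm (Fin n), y ∘ g = y → ∀ h : Equiv.Perm (Fin n) → ℝ,
    ∑ q : Equiv.Perm (Fin n), (h (q * g) - h q) ^ 2 ≤
      C * ∑ q : Equiv.Perm (Fin n), ∑ i : Fin n, ∑ j : Fin n,
        (if (i : ℕ) + 1 = j ∧ y i = y j then (h (q * Equiv.swap i j) - h q) ^ 2 else 0))
    {N : ℕ} (F : (Fin n → ℕ) × Equiv.Perm (Fin n) → ℝ) {z : Fin n → ℕ} (hz : ∀ i, z i ≤ N)
    {q : Equiv.Perm (Fin n)} (hq : Monotone (z ∘ q)) :
    (ff F z - F (z ∘ q, q)) ^ 2 ≤ 2 * C * Ex N F := by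
  have h1 : z ∘ Tuple.sort z = z ∘ q := Tuple.unique_monotone (Tuple.monotone_sort z) hq
  have h2 : Tuple.sort z = q * (q⁻¹ * Tuple.sort z) := by group
  unfold ff
  rw [h1]
  nth_rewrite 1 [h2]
  apply stab_le hC0 hC F (mem_mb'.2 ⟨fun i => hz _, hq⟩)
  funext j
  have h3 := congrFun h1 j
  simp only [Function.comp_apply] at h3
  simp [h3]

theorem alg {a b c δ E : ℝ} (hδ : 0 < δ) (hb : b ^ 2 ≤ E) (hc : c ^ 2 ≤ E) :
    (a + b + c) ^ 2 ≤ (1 + δ) * a ^ 2 + (1 + 1 / δ) * (4 * E) := by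
  have h1 : (a + b + c) ^ 2 ≤ (1 + δ) * a ^ 2 + (1 + 1 / δ) * (b + c) ^ 2 := by
    have h2 : (1 + δ) * a ^ 2 + (1 + 1 / δ) * (b + c) ^ 2 - (a + b + c) ^ 2 =
        (δ * a - (b + c)) ^ 2 / δ := by
      field_simp
      ring
    have h3 : 0 ≤ (δ * a - (b + c)) ^ 2 / δ := div_nonneg (sq_nonneg _) hδ.le
    linarith
  have h4 : (b + c) ^ 2 ≤ 4 * E := by nlinarith [sq_nonneg (b - c)]
  have h5 : 0 ≤ 1 + 1 / δ := by positivity
  have h6 := mul_le_mul_of_nonneg_left h4 h5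
  linarith

theorem t_X7 : S_X7a → S_X7b → S_X7 := by
  intro hX7a hX7b n N r s K K' hW hK hKK' hGI
  obtain ⟨C, hC0, hC⟩ := hX7a n
  obtain ⟨C', hC'0, hC'⟩ := hX7b n N s hW.spos
  obtain ⟨A, hA⟩ : ∃ A, A = sts (n := n) (mb n N) (fun _ _ => False) := ⟨_, rfl⟩
  obtain ⟨M, hM⟩ : ∃ M : ℝ, M = A.card := ⟨_, rfl⟩
  have hM0 : 0 ≤ M := by rw [hM]; positivity
  obtain ⟨Rr, hR⟩ : ∃ Rr, Rr = ∑ t ∈ A, r t.1 := ⟨_, rfl⟩
  have hR0 : 0 ≤ Rr := by
    rw [hR]
    exact Finset.sum_nonneg fun t _ => hW.nn _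
  obtain ⟨St, hSt⟩ : ∃ St, St = ∑ x ∈ Pool.Agent.J4H58.XC.box n N, ∑ i : Fin n, s x i :=
    ⟨_, rfl⟩
  have hSt0 : 0 ≤ St := by
    rw [hSt]
    exact Finset.sum_nonneg fun x _ => Finset.sum_nonneg fun i _ => (hW.spos x i).le
  obtain ⟨δ, hδ⟩ : ∃ δ, δ = (K' - K) / (2 * K) := ⟨_, rfl⟩
  have hδ0 : 0 < δ := by
    rw [hδ]
    exact div_pos (by linarith) (by linarith)
  have hKδ : K * (1 + δ) = K + (K' - K) / 2 := by
    rw [hδ]
    field_simp
  obtain ⟨c₁, hc₁⟩ : ∃ c₁, c₁ = (1 + 1 / δ) * (8 * C) * St := ⟨_, rfl⟩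
  have hc₁0 : 0 ≤ c₁ := by
    rw [hc₁]
    have : 0 ≤ 1 + 1 / δ := by positivity
    positivity
  obtain ⟨κ, hκ⟩ : ∃ κ, κ = (K' - K) / (2 * (M * C' + 1)) := ⟨_, rfl⟩
  have hMC : 0 ≤ M * C' := mul_nonneg hM0 hC'0
  have hκ0 : 0 < κ := by
    rw [hκ]
    exact div_pos (by linarith) (by linarith)
  have hκM : κ * (M * C') ≤ (K' - K) / 2 := by
    have h1 : κ * (2 * (M * C' + 1)) = K' - K := by
      rw [hκ]
      exact div_mul_cancel₀ _ (by linarith)
    nlinarith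
  refine ⟨κ, 1 + c₁, hκ0, by linarith, ?_⟩
  rw [← hA]
  intro F
  have hEm := Em_nonneg N hW.spos F
  have hEx := Ex_nonneg (n := n) N F
  have hen : en A (cd (ga s) (gl (1 + c₁))) F = Em N s F + (1 + c₁) * Ex N F := by
    rw [hA]
    exact en_eq N s _ F
  rw [hen]
  -- the crude bound
  have hD : ∀ t ∈ A, ∀ t' ∈ A, (F t - F t') ^ 2 ≤ C' * (Em N s F + Ex N F) := by
    intro t ht t' ht'
    rw [hA, sts_full, Finset.mem_product] at ht ht'
    have h1 := hC' F t t' ht.1 ht'.1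
    rw [en_eq, one_mul] at h1
    exact h1
  have h1 := var_add A (m := fun t => r t.1) (F := F) (fun t _ => hW.nn _) hκ0.le hD
  -- the inequality on the grid
  obtain ⟨b, hb⟩ := hGI (ff F)
  have h2 := var_le A (fun t => r t.1) F b
  have h3 := lhs_le (N := N) hW F b
  rw [← hA] at h3
  have h4 : ∑ x ∈ Pool.Agent.J4H58.XC.box n N, ∑ i : Fin n,
      (if x i < N then s x i * (ff F (x + Pi.single i 1) - ff F x) ^ 2 else 0) ≤
      (1 + δ) * Em N s F + c₁ * Ex N F := by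
    have h5 : ∑ x ∈ Pool.Agent.J4H58.XC.box n N, ∑ i : Fin n,
      (if x i < N then s x i * (ff F (x + Pi.single i 1) - ff F x) ^ 2 else 0) ≤
      ∑ x ∈ Pool.Agent.J4H58.XC.box n N, ∑ i : Fin n,
        ((1 + δ) * (if x i < N then s x i * (F ((x + Pi.single i 1) ∘ qq x i, qq x i) -
          F (x ∘ qq x i, qq x i)) ^ 2 else 0) +
          (1 + 1 / δ) * (8 * C) * Ex N F * s x i) := by
      refine Finset.sum_le_sum fun x hx => Finset.sum_le_sum fun i _ => ?_
      rw [mem_box] at hx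
      have hs := hW.spos x i
      have hp : 0 ≤ (1 + 1 / δ) * (8 * C) * Ex N F * s x i := by
        have : 0 ≤ 1 + 1 / δ := by positivity
        positivity
      split_ifs with hi
      · have h6 := srt_le hC0 hC F hx (qq_mono x i)
        have h7 := srt_le hC0 hC F (z := x + Pi.single i 1) (N := N) (by
          intro j
          have := hx j
          simp only [Pi.add_apply, Pi.single_apply]
          split_ifs with h8
          · subst h8; omega
          · omega) (qq_mono' x i)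
        have h8 := alg (a := F ((x + Pi.single i 1) ∘ qq x i, qq x i) -
          F (x ∘ qq x i, qq x i)) (b := ff F (x + Pi.single i 1) -
          F ((x + Pi.single i 1) ∘ qq x i, qq x i)) (c := -(ff F x - F (x ∘ qq x i, qq x i)))
          hδ0 h7 (by rw [neg_sq]; exact h6)
        have h9 : F ((x + Pi.single i 1) ∘ qq x i, qq x i) - F (x ∘ qq x i, qq x i) +
          (ff F (x + Pi.single i 1) - F ((x + Pi.single i 1) ∘ qq x i, qq x i)) +
          -(ff F x - F (x ∘ qq x i, qq x i)) = ff F (x + Pi.single i 1) - ff F x := by ring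
        rw [h9] at h8
        have h10 := mul_le_mul_of_nonneg_left h8 hs.le
        calc s x i * (ff F (x + Pi.single i 1) - ff F x) ^ 2 ≤ _ := h10
          _ = _ := by ring
      · rw [mul_zero, zero_add]
        exact hp
    refine h5.trans ?_
    simp only [Finset.sum_add_distrib, ← Finset.mul_sum]
    rw [← hSt, hc₁]
    have h6 := rhs_le (N := N) hW F
    have h7 : 0 ≤ 1 + δ := by linarith
    have h8 := mul_le_mul_of_nonneg_left h6 h7
    have h9 : (1 + 1 / δ) * (8 * C) * Ex N F * St = (1 + 1 / δ) * (8 * C) * St * Ex N F := by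
      ring
    rw [h9]
    linarith
  have h5 : ∑ t ∈ A, r t.1 * (F t - b) ^ 2 ≤ K * ((1 + δ) * Em N s F + c₁ * Ex N F) :=
    h3.trans (hb.trans (mul_le_mul_of_nonneg_left h4 hK.le))
  have h6 := mul_le_mul_of_nonneg_left h5 hR0
  have h7 : ∑ t ∈ A, (r t.1 + κ) = Rr + κ * M := by
    rw [Finset.sum_add_distrib, ← hR, Finset.sum_const, nsmul_eq_mul, hM]
    ring
  rw [← hR, ← hM] at h1
  rw [← hR] at h2
  rw [h7] at h1 ⊢
  refine h1.trans ?_
  -- the arithmetic
  have e1 : (κ * Rr * M + κ ^ 2 * M ^ 2 / 2) * (C' * (Em N s F + Ex N F)) =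
      (Rr * (κ * (M * C')) + κ * M * (κ * (M * C')) / 2) * (Em N s F + Ex N F) := by ring
  rw [e1]
  have e2 : Rr * (κ * (M * C')) ≤ Rr * ((K' - K) / 2) := mul_le_mul_of_nonneg_left hκM hR0
  have hκM0 : 0 ≤ κ * M := mul_nonneg hκ0.le hM0
  have e3 : κ * M * (κ * (M * C')) ≤ κ * M * ((K' - K) / 2) :=
    mul_le_mul_of_nonneg_left hκM hκM0
  have e4 : Rr * (κ * (M * C')) + κ * M * (κ * (M * C')) / 2 ≤
      Rr * ((K' - K) / 2) + κ * M * K' := by
    have : κ * M * ((K' - K) / 2) / 2 ≤ κ * M * K' := by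
      have : (K' - K) / 2 / 2 ≤ K' := by linarith
      have := mul_le_mul_of_nonneg_left this hκM0
      linarith
    linarith
  have e5 := mul_le_mul_of_nonneg_right e4 (add_nonneg hEm hEx)
  have e6 : Rr * (K * ((1 + δ) * Em N s F + c₁ * Ex N F)) =
      Rr * ((K + (K' - K) / 2) * Em N s F + K * c₁ * Ex N F) := by
    rw [← hKδ]
    ring
  rw [e6] at h6
  have e7 : 0 ≤ Rr * (K' - K) * c₁ * Ex N F :=
    mul_nonneg (mul_nonneg (mul_nonneg hR0 (by linarith)) hc₁0) hEx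
  have e8 : 0 ≤ Rr * ((K' + K) / 2) * Ex N F :=
    mul_nonneg (mul_nonneg hR0 (by linarith)) hEx
  have e9 : 0 ≤ κ * M * K' * (c₁ * Ex N F) :=
    mul_nonneg (mul_nonneg hκM0 (by linarith)) (mul_nonneg hc₁0 hEx)
  nlinarith [h2, h6, e5, e7, e8, e9]

end Pool.Agent.J4H13.XC
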